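import Pool.Agent.Work.MP_db9399_all.Interface

/-!
# Block AL: lopsided weighted local lemma, counting form
-/

set_option autoImplicit false

namespace Pool.Agent.Work.MP_db9399_all

open Finset Classical

universe u v

namespace ALAux

variable {Ω : Type u} [Fintype Ω] {ι : Type v}

/-- number of points avoiding all events of `S` -/
noncomputable def N (E : ι → Ω → Prop) (S : Finset ι) : ℝ :=
  ((univ.filter (fun ω => ∀ k ∈ S, ¬ E k ω)).card : ℝ)

/-- number of points of `E i` avoiding all events of `S` -/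
noncomputable def M (E : ι → Ω → Prop) (i : ι) (S : Finset ι) : ℝ :=
  ((univ.filter (fun ω => E i ω ∧ ∀ k ∈ S, ¬ E k ω)).card : ℝ)

theorem N_nonneg (E : ι → Ω → Prop) (S : Finset ι) : 0 ≤ N E S := Nat.cast_nonneg _

theorem N_insert (E : ι → Ω → Prop) (i : ι) (S : Finset ι) :
    N E (insert i S) + M E i S = N E S := by
  have h1 : (univ.filter (fun ω => ∀ k ∈ insert i S, ¬ E k ω)) =
      (univ.filter (fun ω => ∀ k ∈ S, ¬ E k ω)).filter (fun ω => ¬ E i ω) := by
    ext ω
    simp [and_comm]
  have h2 : (univ.filter (fun ω => E i ω ∧ ∀ k ∈ S, ¬ E k ω)) =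
      (univ.filter (fun ω => ∀ k ∈ S, ¬ E k ω)).filter (fun ω => E i ω) := by
    ext ω
    simp [and_comm]
  unfold N M
  rw [h1, h2, add_comm, ← Nat.cast_add, Finset.card_filter_add_card_filter_not]

theorem exp_le (x : ℝ) (h0 : 0 ≤ x) (h1 : x ≤ 1 / 2) : Real.exp (-(2 * x)) ≤ 1 - x := by
  have h2 : 1 + 2 * x ≤ Real.exp (2 * x) := by
    have := Real.add_one_le_exp (2 * x)
    linarith
  have h3 : 0 < 1 + 2 * x := by linarith
  rw [Real.exp_neg]
  have h4 : (Real.exp (2 * x))⁻¹ ≤ (1 + 2 * x)⁻¹ := inv_anti₀ h3 h2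
  refine h4.trans ?_
  rw [inv_le_iff_one_le_mul₀ h3]
  nlinarith

theorem chain (E : ι → Ω → Prop) (x : ι → ℝ) (h0 : ∀ i, 0 ≤ x i) (h1 : ∀ i, x i ≤ 1 / 2) (n : ℕ)
    (hP : ∀ U : Finset ι, U.card < n → ∀ i, M E i U ≤ x i * N E U) (S : Finset ι) :
    ∀ T : Finset ι, Disjoint T S → (S ∪ T).card ≤ n →
      Real.exp (-(2 * ∑ k ∈ T, x k)) * N E S ≤ N E (S ∪ T) := by
  intro T
  induction T using Finset.induction_on with
  | empty =>
    intro _ _
    simp
  | insert a T ha ih =>
    intro hd hc
    rw [Finset.disjoint_insert_left] at hd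
    have hU : a ∉ S ∪ T := by
      rw [Finset.mem_union]
      rintro (h | h)
      · exact hd.1 h
      · exact ha h
    have e1 : S ∪ insert a T = insert a (S ∪ T) := by
      rw [Finset.union_insert]
    rw [e1, Finset.card_insert_of_notMem hU] at hc
    have h2 := ih hd.2 (by omega)
    have h3 := hP (S ∪ T) (by omega) a
    have h4 := N_insert E a (S ∪ T)
    rw [e1, Finset.sum_insert ha]
    have h5 : Real.exp (-(2 * (x a + ∑ k ∈ T, x k))) =
        Real.exp (-(2 * x a)) * Real.exp (-(2 * ∑ k ∈ T, x k)) := by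
      rw [← Real.exp_add]
      congr 1
      ring
    rw [h5]
    have h6 := exp_le (x a) (h0 a) (h1 a)
    have h7 := N_nonneg E (S ∪ T)
    calc Real.exp (-(2 * x a)) * Real.exp (-(2 * ∑ k ∈ T, x k)) * N E S
        = Real.exp (-(2 * x a)) * (Real.exp (-(2 * ∑ k ∈ T, x k)) * N E S) := by ring
      _ ≤ Real.exp (-(2 * x a)) * N E (S ∪ T) :=
          mul_le_mul_of_nonneg_left h2 (Real.exp_pos _).le
      _ ≤ (1 - x a) * N E (S ∪ T) := mul_le_mul_of_nonneg_right h6 h7
      _ ≤ N E (insert a (S ∪ T)) := by linarith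

theorem M_zero (E : ι → Ω → Prop) (i : ι) (S : Finset ι) (hi : i ∈ S) : M E i S = 0 := by
  unfold M
  rw [Nat.cast_eq_zero, Finset.card_eq_zero, Finset.filter_eq_empty_iff]
  rintro ω _ ⟨h4, h5⟩
  exact h5 i hi h4

theorem M_mono (E : ι → Ω → Prop) (i : ι) (S S' : Finset ι) (h : S' ⊆ S) : M E i S ≤ M E i S' := by
  unfold M
  rw [Nat.cast_le]
  refine Finset.card_le_card ?_
  intro ω hω
  rw [Finset.mem_filter] at hω ⊢
  exact ⟨hω.1, hω.2.1, fun k hk => hω.2.2 k (h hk)⟩

theorem N_empty (E : ι → Ω → Prop) : N E (∅ : Finset ι) = (Fintype.card Ω : ℝ) := by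
  unfold N
  simp

theorem N_exists (E : ι → Ω → Prop) (S : Finset ι) (h : 0 < N E S) : ∃ ω, ∀ k ∈ S, ¬ E k ω := by
  unfold N at h
  rw [Nat.cast_pos, Finset.card_pos] at h
  obtain ⟨ω, hω⟩ := h
  exact ⟨ω, (Finset.mem_filter.1 hω).2⟩

end ALAux

open ALAux in
theorem stmt_AL : Stmt_AL.{u, v} := by
  intro Ω _ _ ι _ E adj p x h0 h1 h2 h3
  have claim : ∀ n : ℕ, ∀ S : Finset ι, S.card < n → ∀ i, M E i S ≤ x i * N E S := by
    intro n
    induction n with
    | zero => intro S hS; omega
    | succ n ih =>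
      intro S hS i
      have hN := N_nonneg E S
      by_cases hiS : i ∈ S
      · rw [M_zero E i S hiS]
        exact mul_nonneg (h0 i) hN
      · set S1 := S.filter (fun k => adj i k) with hS1
        set S2 := S.filter (fun k => ¬ adj i k) with hS2
        have hun : S2 ∪ S1 = S := by
          rw [Finset.union_comm]
          exact Finset.filter_union_filter_not_eq _ _
        have hdis : Disjoint S1 S2 := Finset.disjoint_filter_filter_not _ _ _
        have h4 : M E i S ≤ M E i S2 := M_mono E i S S2 (Finset.filter_subset _ _)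
        have h5 : M E i S2 ≤ p i * N E S2 := by
          have := h2 i S2 fun k hk => (Finset.mem_filter.1 hk).2
          unfold M N
          convert this using 4
          convert rfl
        have h6 := chain E x h0 h1 n ih S2 S1 hdis (by rw [hun]; omega)
        rw [hun] at h6
        by_cases hp : 0 ≤ p i
        · have h7 : ∑ k ∈ S1, x k ≤ ∑ k ∈ univ.filter (fun k => adj i k), x k := by
            refine Finset.sum_le_sum_of_subset_of_nonneg ?_ fun k _ _ => h0 k
            intro k hk
            exact Finset.mem_filter.2 ⟨Finset.mem_univ _, (Finset.mem_filter.1 hk).2⟩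
          have h8 : N E S2 ≤ Real.exp (2 * ∑ k ∈ S1, x k) * N E S := by
            have h9 : Real.exp (2 * ∑ k ∈ S1, x k) *
                (Real.exp (-(2 * ∑ k ∈ S1, x k)) * N E S2) = N E S2 := by
              rw [← mul_assoc, ← Real.exp_add, add_neg_cancel, Real.exp_zero, one_mul]
            rw [← h9]
            exact mul_le_mul_of_nonneg_left h6 (Real.exp_pos _).le
          have h10 : Real.exp (2 * ∑ k ∈ S1, x k) ≤
              Real.exp (2 * ∑ k ∈ univ.filter (fun k => adj i k), x k) :=
            Real.exp_le_exp.2 (by linarith)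
          calc M E i S ≤ p i * N E S2 := h4.trans h5
            _ ≤ p i * (Real.exp (2 * ∑ k ∈ S1, x k) * N E S) :=
                mul_le_mul_of_nonneg_left h8 hp
            _ ≤ p i * (Real.exp (2 * ∑ k ∈ univ.filter (fun k => adj i k), x k) * N E S) :=
                mul_le_mul_of_nonneg_left (mul_le_mul_of_nonneg_right h10 hN) hp
            _ = (p i * Real.exp (2 * ∑ k ∈ univ.filter (fun k => adj i k), x k)) * N E S := by
                ring
            _ ≤ x i * N E S := mul_le_mul_of_nonneg_right (h3 i) hN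
        · push Not at hp
          have h7 : p i * N E S2 ≤ 0 :=
            mul_nonpos_of_nonpos_of_nonneg hp.le (N_nonneg E S2)
          have h8 := mul_nonneg (h0 i) hN
          linarith
  have h4 := chain E x h0 h1 ((univ : Finset ι).card + 1)
    (fun U hU i => claim _ U hU i) ∅ univ (by simp) (by simp)
  have h6 : (0 : ℝ) < Fintype.card Ω := by
    exact_mod_cast Fintype.card_pos
  have h7 : 0 < N E (∅ ∪ univ : Finset ι) := by
    refine lt_of_lt_of_le ?_ h4
    rw [N_empty]
    exact mul_pos (Real.exp_pos _) h6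
  obtain ⟨ω, hω⟩ := N_exists E _ h7
  exact ⟨ω, fun i => hω i (by simp)⟩

end Pool.Agent.Work.MP_db9399_all
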