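import Pool.Agent.Work.MP_db9399_all.Interface
import Pool.Agent.Work.MP_db9399_all_helper6.AL

/-!
# Block LLLI: weighted local lemma in a product space, for packages
-/

set_option autoImplicit false

namespace Pool.Agent.Work.MP_db9399_all

open Finset Classical

universe u v

namespace LLLIAux

variable {J : Type u} [Fintype J] {M : ℕ}

/-- exchange of the coordinates outside `Q` -/
noncomputable def mix (Q : Finset J) (f g : J → Fin M) : J → Fin M := fun y =>
  if y ∈ Q then f y else g y

theorem indep (Q : Finset J) (A B : (J → Fin M) → Prop) (hA : DepOnI Q A) (hB : DepOnI Qᶜ B) :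
    (((univ.filter (fun f : J → Fin M => A f ∧ B f)).card : ℝ)) * (Fintype.card (J → Fin M) : ℝ) =
      ((univ.filter A).card : ℝ) * ((univ.filter B).card : ℝ) := by
  have h1 : (univ.filter (fun f : J → Fin M => A f ∧ B f)).card * Fintype.card (J → Fin M) =
      (univ.filter A).card * (univ.filter B).card := by
    rw [← Finset.card_univ (α := J → Fin M), ← Finset.card_product, ← Finset.card_product]
    refine Finset.card_bij' (fun p _ => (mix Q p.1 p.2, mix Q p.2 p.1))
      (fun p _ => (mix Q p.1 p.2, mix Q p.2 p.1)) ?_ ?_ ?_ ?_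
    · rintro ⟨f, g⟩ h
      simp only [Finset.mem_product, Finset.mem_filter, Finset.mem_univ, true_and, and_true] at h ⊢
      constructor
      · rw [hA (mix Q f g) f fun y hy => if_pos hy]
        exact h.1
      · rw [hB (mix Q g f) f fun y hy => if_neg (Finset.mem_compl.1 hy)]
        exact h.2
    · rintro ⟨f, g⟩ h
      simp only [Finset.mem_product, Finset.mem_filter, Finset.mem_univ, true_and, and_true] at h ⊢
      constructor
      · rw [hA (mix Q f g) f fun y hy => if_pos hy]
        exact h.1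
      · rw [hB (mix Q f g) g fun y hy => if_neg (Finset.mem_compl.1 hy)]
        exact h.2
    · rintro ⟨f, g⟩ _
      refine Prod.ext ?_ ?_ <;> funext y <;> by_cases hy : y ∈ Q <;> simp [mix, hy]
    · rintro ⟨f, g⟩ _
      refine Prod.ext ?_ ?_ <;> funext y <;> by_cases hy : y ∈ Q <;> simp [mix, hy]
  exact_mod_cast h1

theorem indep' (hM : 0 < M) (Q : Finset J) (A B : (J → Fin M) → Prop) (hA : DepOnI Q A)
    (hB : DepOnI Qᶜ B) :
    (((univ.filter (fun f : J → Fin M => A f ∧ B f)).card : ℝ)) ≤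
      pr A * ((univ.filter B).card : ℝ) := by
  have h1 := indep Q A B hA hB
  have h2 : (0 : ℝ) < Fintype.card (J → Fin M) := by
    have : Nonempty (J → Fin M) := ⟨fun _ => ⟨0, hM⟩⟩
    exact_mod_cast Fintype.card_pos
  unfold pr
  rw [div_mul_eq_mul_div, le_div_iff₀ h2]
  exact le_of_eq h1

end LLLIAux

open LLLIAux in
theorem stmt_LLLI : Stmt_LLLI.{u} := by
  intro J _ M R _ T Sc W P hM hT0 hT1 hP hW
  haveI : NeZero M := ⟨by omega⟩
  unfold PackI at hP
  choose κ hκ Q E hdep hne hsub hw hav using hP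
  letI : ∀ r, Fintype (κ r) := hκ
  let x : (Σ r, κ r) → ℝ := fun i =>
    pr (E i.1 i.2) * Real.exp (2 * T * ((Q i.1 i.2).card : ℝ))
  have hpr : ∀ (A : (J → Fin M) → Prop), 0 ≤ pr A := fun A => by
    unfold pr
    positivity
  have hx0 : ∀ i, 0 ≤ x i := fun i => mul_nonneg (hpr _) (Real.exp_pos _).le
  have hWr : ∀ r, ∑ k, x ⟨r, k⟩ ≤ W r := fun r => hw r
  have hW0 : ∀ r, 0 ≤ W r := fun r => (Finset.sum_nonneg fun k _ => hx0 ⟨r, k⟩).trans (hWr r)
  have hsum : ∀ y, ∑ i ∈ univ.filter (fun i : Σ r, κ r => y ∈ Q i.1 i.2), x i ≤ T := by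
    intro y
    refine le_trans ?_ (hW y)
    rw [Finset.sum_filter, Fintype.sum_sigma, Finset.sum_filter]
    refine Finset.sum_le_sum fun r _ => ?_
    split_ifs with hr
    · refine le_trans (Finset.sum_le_sum fun k _ => ?_) (hWr r)
      split_ifs
      · exact le_rfl
      · exact hx0 _
    · refine le_of_eq (Finset.sum_eq_zero fun k _ => ?_)
      rw [if_neg]
      exact fun h => hr (hsub r k h)
  have hxT : ∀ i, x i ≤ T := by
    intro i
    obtain ⟨y, hy⟩ := hne i.1 i.2
    refine le_trans ?_ (hsum y)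
    exact Finset.single_le_sum (f := x) (fun k _ => hx0 k)
      (Finset.mem_filter.2 ⟨Finset.mem_univ i, hy⟩)
  have key := stmt_AL.{u, u} (J → Fin M) (Σ r, κ r) (fun i => E i.1 i.2)
    (fun i k => ¬ Disjoint (Q i.1 i.2) (Q k.1 k.2)) (fun i => pr (E i.1 i.2)) x hx0
    (fun i => (hxT i).trans (by linarith))
  have key2 := key ?_ ?_
  · obtain ⟨f, hf⟩ := key2
    exact ⟨f, fun r => hav r f fun k => hf ⟨r, k⟩⟩
  · intro i S hS
    have h1 := indep' hM (Q i.1 i.2) (E i.1 i.2) (fun f => ∀ k ∈ S, ¬ E k.1 k.2 f)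
      (hdep i.1 i.2) (by
      intro f f' hff
      apply propext
      refine forall₂_congr fun k hk => ?_
      rw [hdep k.1 k.2 f f' fun y hy => hff y ?_]
      rw [Finset.mem_compl]
      exact fun h => (Finset.disjoint_left.1 (not_not.1 (hS k hk))) h hy)
    convert h1 using 4
    all_goals try congr!
  · intro i
    have h1 : ∑ k ∈ univ.filter (fun k : Σ r, κ r => ¬ Disjoint (Q i.1 i.2) (Q k.1 k.2)), x k ≤
        ∑ y ∈ Q i.1 i.2, ∑ k ∈ univ.filter (fun k : Σ r, κ r => y ∈ Q k.1 k.2), x k := by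
      simp_rw [Finset.sum_filter]
      rw [Finset.sum_comm]
      refine Finset.sum_le_sum fun k _ => ?_
      by_cases hk : ¬ Disjoint (Q i.1 i.2) (Q k.1 k.2)
      · rw [if_pos hk]
        rw [Finset.not_disjoint_iff] at hk
        obtain ⟨y, hy, hy'⟩ := hk
        have h2 : x k = (if y ∈ Q k.1 k.2 then x k else 0) := (if_pos hy').symm
        conv_lhs => rw [h2]
        refine Finset.single_le_sum (f := fun y => if y ∈ Q k.1 k.2 then x k else 0) ?_ hy
        intro z _
        split_ifs
        · exact hx0 k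
        · exact le_rfl
      · rw [if_neg hk]
        refine Finset.sum_nonneg fun z _ => ?_
        split_ifs
        · exact hx0 k
        · exact le_rfl
    have h2 : ∑ y ∈ Q i.1 i.2, ∑ k ∈ univ.filter (fun k : Σ r, κ r => y ∈ Q k.1 k.2), x k ≤
        ((Q i.1 i.2).card : ℝ) * T := by
      rw [← nsmul_eq_mul]
      exact Finset.sum_le_card_nsmul _ _ _ fun y _ => hsum y
    refine mul_le_mul_of_nonneg_left (Real.exp_le_exp.2 ?_) (hpr _)
    have h4 : 2 * ∑ k ∈ univ.filter (fun k : Σ r, κ r => ¬ Disjoint (Q i.1 i.2) (Q k.1 k.2)), x k ≤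
        2 * T * ((Q i.1 i.2).card : ℝ) := by
      have := h1.trans h2
      linarith
    refine le_trans (le_of_eq ?_) h4
    congr!

end Pool.Agent.Work.MP_db9399_all
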