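import Pool.Agent.Work.MP_db9399_all.Interface

/-!
# Block VIZ: Vizing's theorem

Proof after Schrijver: vertices are added one by one; the edges at the new vertex are coloured by
induction on the number of colours, after a choice of the colouring that minimises a sum of squares.
-/

set_option autoImplicit false

namespace Pool.Agent.Work.MP_db9399_all

open Finset Classical

universe u

namespace VIZAux

variable {V : Type u} [Fintype V]

/-- proper edge colouring with colours in `C` -/
structure PC (H : SimpleGraph V) (C : Finset ℕ) (c : V → V → ℕ) : Prop where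
  symm : ∀ v w, c v w = c w v
  mem : ∀ v w, H.Adj v w → c v w ∈ C
  inj : ∀ v w w', H.Adj v w → H.Adj v w' → c v w = c v w' → w = w'

/-- the colour `a` is missing at `u` -/
def Miss (H : SimpleGraph V) (c : V → V → ℕ) (u : V) (a : ℕ) : Prop := ∀ w, H.Adj u w → c u w ≠ a

/-- the subgraph of the colours `a`, `b` -/
def two (H : SimpleGraph V) (c : V → V → ℕ) (hc : ∀ v w, c v w = c w v) (a b : ℕ) :
    SimpleGraph V where
  Adj v w := H.Adj v w ∧ (c v w = a ∨ c v w = b)
  symm := ⟨fun v w h => ⟨h.1.symm, by rw [hc w v]; exact h.2⟩⟩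
  loopless := ⟨fun v h => H.loopless.irrefl v h.1⟩

theorem comp_le (H : SimpleGraph V) (C : Finset ℕ) (c : V → V → ℕ) (hc : PC H C c) (a b : ℕ)
    (u : V) (X : Finset V) (hX : ∀ w ∈ X, Miss H c w b)
    (hX' : ∀ w ∈ X, (two H c hc.symm a b).Reachable u w) : X.card ≤ 2 := by
  set K := two H c hc.symm a b with hK
  set comp := K.connectedComponentMk u with hcomp
  have hmem : ∀ w ∈ X, w ∈ comp := by
    intro w hw
    exact (SimpleGraph.ConnectedComponent.mem_supp_iff comp w).2
      (SimpleGraph.ConnectedComponent.sound (hX' w hw).symm)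
  let L := comp.toSimpleGraph
  have hconn : L.Connected := comp.connected_toSimpleGraph
  have h1 := hconn.card_vert_le_card_edgeSet_add_one
  have h2 := L.sum_degrees_eq_twice_card_edges
  rw [Nat.card_eq_fintype_card, Nat.card_eq_fintype_card, ← SimpleGraph.edgeFinset_card] at h1
  have hadj : ∀ x y : comp, L.Adj x y → K.Adj x.1 y.1 := fun x y h => h
  have hdeg : ∀ x : comp, L.degree x ≤ 2 := by
    intro x
    have : (L.neighborFinset x).card ≤ ({a, b} : Finset ℕ).card := by
      refine Finset.card_le_card_of_injOn (fun y => c x.1 y.1) ?_ ?_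
      · intro y hy
        rw [Finset.mem_coe, SimpleGraph.mem_neighborFinset] at hy
        have := (hadj x y hy).2
        simpa using this
      · intro y hy z hz h
        rw [Finset.mem_coe, SimpleGraph.mem_neighborFinset] at hy hz
        exact Subtype.ext (hc.inj x.1 y.1 z.1 (hadj x y hy).1 (hadj x z hz).1 h)
    exact this.trans (Finset.card_le_two)
  have hdeg1 : ∀ x : comp, x.1 ∈ X → L.degree x ≤ 1 := by
    intro x hx
    have : (L.neighborFinset x).card ≤ ({a} : Finset ℕ).card := by
      refine Finset.card_le_card_of_injOn (fun y => c x.1 y.1) ?_ ?_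
      · intro y hy
        rw [Finset.mem_coe, SimpleGraph.mem_neighborFinset] at hy
        have h3 := hadj x y hy
        rcases h3.2 with h4 | h4
        · simp [h4]
        · exact absurd h4 (hX x.1 hx y.1 h3.1)
      · intro y hy z hz h
        rw [Finset.mem_coe, SimpleGraph.mem_neighborFinset] at hy hz
        exact Subtype.ext (hc.inj x.1 y.1 z.1 (hadj x y hy).1 (hadj x z hz).1 h)
    simpa using this
  have h3 : ∑ x : comp, L.degree x + X.card ≤ 2 * Fintype.card comp := by
    have h4 : X.card = ∑ x : comp, (if x.1 ∈ X then 1 else 0) := by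
      rw [← Finset.card_filter]
      symm
      refine Finset.card_bij (fun x _ => x.1) ?_ ?_ ?_
      · intro x hx
        exact (Finset.mem_filter.1 hx).2
      · intro x _ y _ h
        exact Subtype.ext h
      · intro x hx
        exact ⟨⟨x, hmem x hx⟩, Finset.mem_filter.2 ⟨Finset.mem_univ _, hx⟩, rfl⟩
    rw [h4, ← Finset.sum_add_distrib]
    calc ∑ x : comp, (L.degree x + if x.1 ∈ X then 1 else 0) ≤ ∑ _x : comp, 2 := by
          refine Finset.sum_le_sum fun x _ => ?_
          split_ifs with hx
          · have := hdeg1 x hx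
            omega
          · have := hdeg x
            omega
      _ = 2 * Fintype.card comp := by
          rw [Finset.sum_const, Finset.card_univ, smul_eq_mul, mul_comm]
  have h5 : ∑ x : comp, L.degree x = 2 * L.edgeFinset.card := h2
  omega

/-- Kempe exchange on the set `A` -/
noncomputable def kempe (c : V → V → ℕ) (a b : ℕ) (A : Set V) (v w : V) : ℕ :=
  if v ∈ A ∧ w ∈ A then Equiv.swap a b (c v w) else c v w

theorem kempe_edge (H : SimpleGraph V) (C : Finset ℕ) (c : V → V → ℕ) (hc : PC H C c) (a b : ℕ)
    (A : Set V) (hA : ∀ v w, (two H c hc.symm a b).Adj v w → v ∈ A → w ∈ A) (v w : V)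
    (h : H.Adj v w) :
    kempe c a b A v w = if v ∈ A then Equiv.swap a b (c v w) else c v w := by
  unfold kempe
  by_cases hv : v ∈ A
  · by_cases hw : w ∈ A
    · simp [hv, hw]
    · have h1 : c v w ≠ a := fun h1 => hw (hA v w ⟨h, Or.inl h1⟩ hv)
      have h2 : c v w ≠ b := fun h1 => hw (hA v w ⟨h, Or.inr h1⟩ hv)
      simp [hv, hw, Equiv.swap_apply_of_ne_of_ne h1 h2]
  · simp [hv]

theorem kempe_PC (H : SimpleGraph V) (C : Finset ℕ) (c : V → V → ℕ) (hc : PC H C c) (a b : ℕ)
    (ha : a ∈ C) (hb : b ∈ C)
    (A : Set V) (hA : ∀ v w, (two H c hc.symm a b).Adj v w → v ∈ A → w ∈ A) :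
    PC H C (kempe c a b A) where
  symm v w := by
    unfold kempe
    rw [hc.symm v w]
    by_cases hv : v ∈ A <;> by_cases hw : w ∈ A <;> simp [hv, hw]
  mem v w h := by
    rw [kempe_edge H C c hc a b A hA v w h]
    have h1 := hc.mem v w h
    split_ifs
    · rw [Equiv.swap_apply_def]
      split_ifs
      · exact hb
      · exact ha
      · exact h1
    · exact h1
  inj v w w' h h' he := by
    rw [kempe_edge H C c hc a b A hA v w h, kempe_edge H C c hc a b A hA v w' h'] at he
    split_ifs at he with hv
    · exact hc.inj v w w' h h' ((Equiv.swap a b).injective he)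
    · exact hc.inj v w w' h h' he

theorem kempe_miss (H : SimpleGraph V) (C : Finset ℕ) (c : V → V → ℕ) (hc : PC H C c) (a b : ℕ)
    (A : Set V) (hA : ∀ v w, (two H c hc.symm a b).Adj v w → v ∈ A → w ∈ A) (u : V) (s : ℕ)
    (h : Miss H c u s) :
    Miss H (kempe c a b A) u (if u ∈ A then Equiv.swap a b s else s) := by
  intro w hw
  rw [kempe_edge H C c hc a b A hA u w hw]
  split_ifs
  · exact fun h1 => h w hw ((Equiv.swap a b).injective h1)
  · exact h w hw

/-- admissible pairs (colouring, selection of missing colours) -/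
structure Adm (H : SimpleGraph V) (C : Finset ℕ) (N : Finset V) (u0 : V) (c : V → V → ℕ)
    (S : V → Finset ℕ) : Prop where
  pc : PC H C c
  miss : ∀ u ∈ N, ∀ a ∈ S u, a ∈ C ∧ Miss H c u a
  one : (S u0).card = 1
  two : ∀ u ∈ N, u ≠ u0 → (S u).card = 2

/-- the potential -/
noncomputable def pot (C : Finset ℕ) (N : Finset V) (S : V → Finset ℕ) : ℕ :=
  ∑ a ∈ C, (N.filter (fun u => a ∈ S u)).card ^ 2

theorem sum_swap (C : Finset ℕ) (f g : ℕ → ℕ) (a b : ℕ) (ha : a ∈ C) (hb : b ∈ C) (hab : a ≠ b)
    (hfg : ∀ s ∈ C, s ≠ a → s ≠ b → g s = f s) (h : g a + g b < f a + f b) :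
    ∑ s ∈ C, g s < ∑ s ∈ C, f s := by
  have hb' : b ∈ C.erase a := Finset.mem_erase.2 ⟨hab.symm, hb⟩
  rw [← Finset.add_sum_erase C g ha, ← Finset.add_sum_erase C f ha,
    ← Finset.add_sum_erase _ g hb', ← Finset.add_sum_erase _ f hb']
  have h1 : ∑ s ∈ (C.erase a).erase b, g s = ∑ s ∈ (C.erase a).erase b, f s := by
    refine Finset.sum_congr rfl fun s hs => ?_
    simp only [Finset.mem_erase] at hs
    exact hfg s hs.2.2 hs.2.1 hs.1
  omega

theorem exists_one (H : SimpleGraph V) (C : Finset ℕ) (N : Finset V) (u0 : V) (hu0 : u0 ∈ N)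
    (hN : N.card ≤ C.card) (c0 : V → V → ℕ) (S0 : V → Finset ℕ) (h0 : Adm H C N u0 c0 S0) :
    ∃ c S, Adm H C N u0 c S ∧ ∃ s ∈ C, (N.filter (fun u => s ∈ S u)).card = 1 := by
  -- minimal potential
  have hex : ∃ n, ∃ c S, Adm H C N u0 c S ∧ pot C N S = n := ⟨_, c0, S0, h0, rfl⟩
  obtain ⟨c, S, hA, hpot⟩ := Nat.find_spec hex
  have hmin : ∀ c' S', Adm H C N u0 c' S' → pot C N S ≤ pot C N S' := by
    intro c' S' h'
    rw [hpot]
    exact Nat.find_min' hex ⟨c', S', h', rfl⟩
  refine ⟨c, S, hA, ?_⟩
  by_contra hne
  push Not at hne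
  -- the sum
  have hsum : ∑ s ∈ C, (N.filter (fun u => s ∈ S u)).card = 2 * N.card - 1 := by
    have h1 : ∑ s ∈ C, (N.filter (fun u => s ∈ S u)).card = ∑ u ∈ N, (S u).card := by
      simp_rw [Finset.card_filter]
      rw [Finset.sum_comm]
      refine Finset.sum_congr rfl fun u hu => ?_
      rw [← Finset.sum_filter, Finset.sum_const, smul_eq_mul, mul_one]
      congr 1
      ext s
      simp only [Finset.mem_filter]
      exact ⟨fun h => h.2, fun h => ⟨(hA.miss u hu s h).1, h⟩⟩
    rw [h1, ← Finset.add_sum_erase N _ hu0, hA.one]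
    have h2 : ∑ u ∈ N.erase u0, (S u).card = 2 * (N.card - 1) := by
      rw [← Finset.card_erase_of_mem hu0, mul_comm, ← smul_eq_mul, ← Finset.sum_const]
      refine Finset.sum_congr rfl fun u hu => ?_
      exact hA.two u (Finset.mem_of_mem_erase hu) (Finset.ne_of_mem_erase hu)
    rw [h2]
    have : 0 < N.card := Finset.card_pos.2 ⟨u0, hu0⟩
    omega
  have hNpos : 0 < N.card := Finset.card_pos.2 ⟨u0, hu0⟩
  -- a colour with empty set
  have ha : ∃ a ∈ C, (N.filter (fun u => a ∈ S u)).card = 0 := by
    by_contra hcon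
    push Not at hcon
    have h1 : ∑ _s ∈ C, 2 ≤ ∑ s ∈ C, (N.filter (fun u => s ∈ S u)).card := by
      refine Finset.sum_le_sum fun s hs => ?_
      have h2 := hcon s hs
      have h3 := hne s hs
      omega
    rw [Finset.sum_const, smul_eq_mul, hsum] at h1
    omega
  obtain ⟨a, haC, ha0⟩ := ha
  -- a colour with a large set
  have hb : ∃ b ∈ C, 3 ≤ (N.filter (fun u => b ∈ S u)).card := by
    by_contra hcon
    push Not at hcon
    have h1 : Even (∑ s ∈ C, (N.filter (fun u => s ∈ S u)).card) := by
      refine Finset.even_sum _ fun s hs => ?_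
      have h2 := hcon s hs
      have h3 := hne s hs
      have h4 : (N.filter (fun u => s ∈ S u)).card = 0 ∨
        (N.filter (fun u => s ∈ S u)).card = 2 := by omega
      rcases h4 with h4 | h4 <;> rw [h4]
      · exact ⟨0, rfl⟩
      · exact ⟨1, rfl⟩
    rw [hsum] at h1
    obtain ⟨r, hr⟩ := h1
    omega
  obtain ⟨b, hbC, hb3⟩ := hb
  have hab : a ≠ b := by
    rintro rfl
    omega
  have haS : ∀ u ∈ N, a ∉ S u := by
    intro u hu h
    rw [Finset.card_eq_zero, Finset.filter_eq_empty_iff] at ha0
    exact ha0 hu h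
  obtain ⟨u, hu⟩ : (N.filter (fun u => b ∈ S u)).Nonempty := Finset.card_pos.1 (by omega)
  rw [Finset.mem_filter] at hu
  set K := two H c hA.pc.symm a b with hK
  let A : Set V := {w | K.Reachable u w}
  have hAcl : ∀ v w, K.Adj v w → v ∈ A → w ∈ A := fun v w h hv =>
    SimpleGraph.Reachable.trans hv h.reachable
  let S' : V → Finset ℕ := fun v => if v ∈ A then (S v).image (Equiv.swap a b) else S v
  have hcard : ∀ v, (S' v).card = (S v).card := by
    intro v
    simp only [S']
    split_ifs
    · exact Finset.card_image_of_injective _ (Equiv.swap a b).injective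
    · rfl
  have hA' : Adm H C N u0 (kempe c a b A) S' := by
    refine ⟨kempe_PC H C c hA.pc a b haC hbC A hAcl, ?_, ?_, ?_⟩
    · intro v hv s hs
      simp only [S'] at hs
      by_cases hvA : v ∈ A
      · rw [if_pos hvA, Finset.mem_image] at hs
        obtain ⟨s', hs', rfl⟩ := hs
        have h1 := hA.miss v hv s' hs'
        have h2 := kempe_miss H C c hA.pc a b A hAcl v s' h1.2
        rw [if_pos hvA] at h2
        refine ⟨?_, h2⟩
        rw [Equiv.swap_apply_def]
        split_ifs
        · exact hbC
        · exact haC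
        · exact h1.1
      · rw [if_neg hvA] at hs
        have h1 := hA.miss v hv s hs
        have h2 := kempe_miss H C c hA.pc a b A hAcl v s h1.2
        rw [if_neg hvA] at h2
        exact ⟨h1.1, h2⟩
    · rw [hcard]
      exact hA.one
    · intro v hv hv'
      rw [hcard]
      exact hA.two v hv hv'
  have hlt : pot C N S' < pot C N S := by
    unfold pot
    -- the part of the large set in the component
    set X := N.filter (fun v => b ∈ S v) with hX
    set Y := X.filter (fun v => v ∈ A) with hY
    have hY2 : Y.card ≤ 2 := by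
      refine comp_le H C c hA.pc a b u Y ?_ ?_
      · intro w hw
        have h1 := (Finset.mem_filter.1 hw).1
        rw [hX, Finset.mem_filter] at h1
        exact (hA.miss w h1.1 b h1.2).2
      · intro w hw
        exact (Finset.mem_filter.1 hw).2
    have hY1 : 1 ≤ Y.card := by
      refine Finset.card_pos.2 ⟨u, ?_⟩
      rw [hY, Finset.mem_filter, hX, Finset.mem_filter]
      exact ⟨hu, SimpleGraph.Reachable.refl u⟩
    have e1 : N.filter (fun v => a ∈ S' v) = Y := by
      ext v
      simp only [hY, hX, Finset.mem_filter, S']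
      constructor
      · rintro ⟨hv, h⟩
        by_cases hvA : v ∈ A
        · rw [if_pos hvA, Finset.mem_image] at h
          obtain ⟨s, hs, h1⟩ := h
          have : s = b := by
            have := congrArg (Equiv.swap a b) h1
            rwa [Equiv.swap_apply_self, Equiv.swap_apply_left] at this
          subst this
          exact ⟨⟨hv, hs⟩, hvA⟩
        · rw [if_neg hvA] at h
          exact absurd h (haS v hv)
      · rintro ⟨⟨hv, h⟩, hvA⟩
        refine ⟨hv, ?_⟩
        rw [if_pos hvA, Finset.mem_image]
        exact ⟨b, h, Equiv.swap_apply_right a b⟩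
    have e2 : N.filter (fun v => b ∈ S' v) = X.filter (fun v => ¬ v ∈ A) := by
      ext v
      simp only [hX, Finset.mem_filter, S']
      constructor
      · rintro ⟨hv, h⟩
        by_cases hvA : v ∈ A
        · rw [if_pos hvA, Finset.mem_image] at h
          obtain ⟨s, hs, h1⟩ := h
          have : s = a := by
            have := congrArg (Equiv.swap a b) h1
            rwa [Equiv.swap_apply_self, Equiv.swap_apply_right] at this
          subst this
          exact absurd hs (haS v hv)
        · rw [if_neg hvA] at h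
          exact ⟨⟨hv, h⟩, hvA⟩
      · rintro ⟨⟨hv, h⟩, hvA⟩
        refine ⟨hv, ?_⟩
        rw [if_neg hvA]
        exact h
    have e3 : Y.card + (X.filter (fun v => ¬ v ∈ A)).card = X.card := by
      rw [hY]
      exact Finset.card_filter_add_card_filter_not _
    refine sum_swap C _ _ a b haC hbC hab ?_ ?_
    · intro s hs hsa hsb
      congr 2
      ext v
      simp only [Finset.mem_filter, S']
      by_cases hvA : v ∈ A
      · rw [if_pos hvA, Finset.mem_image]
        constructor
        · rintro ⟨hv, s', hs', h1⟩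
          have : s' = s := by
            have := congrArg (Equiv.swap a b) h1
            rwa [Equiv.swap_apply_self, Equiv.swap_apply_of_ne_of_ne hsa hsb] at this
          subst this
          exact ⟨hv, hs'⟩
        · rintro ⟨hv, h⟩
          exact ⟨hv, s, h, Equiv.swap_apply_of_ne_of_ne hsa hsb⟩
      · rw [if_neg hvA]
    · rw [e1, e2, ha0]
      have h3 : 3 ≤ X.card := hb3
      set y := Y.card with hy
      set z := (X.filter (fun v => ¬ v ∈ A)).card with hz
      have h4 : X.card = y + z := e3.symm
      rw [h4]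
      have h5 : 1 ≤ z := by omega
      nlinarith [Nat.mul_le_mul hY1 h5]
  exact absurd (hmin _ _ hA') (not_le.2 hlt)

/-- the main lemma -/
theorem main (k : ℕ) : ∀ (H : SimpleGraph V) (C : Finset ℕ) (c : V → V → ℕ) (N : Finset V)
    (S : V → Finset ℕ) (u0 : V), C.card = k → N.card ≤ k → PC H C c →
    (∀ u ∈ N, ∀ a ∈ S u, a ∈ C ∧ Miss H c u a) → u0 ∈ N → 1 ≤ (S u0).card →
    (∀ u ∈ N, u ≠ u0 → 2 ≤ (S u).card) →
    ∃ (c' : V → V → ℕ) (f : V → ℕ), PC H C c' ∧ (∀ u ∈ N, f u ∈ C ∧ Miss H c' u (f u)) ∧
      Set.InjOn f (N : Set V) := by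
  induction k with
  | zero =>
    intro H C c N S u0 hC hN _ _ hu0
    have : N.card = 0 := by omega
    rw [Finset.card_eq_zero] at this
    rw [this] at hu0
    exact absurd hu0 (Finset.notMem_empty _)
  | succ k ih =>
    intro H C c0 N S0 u0 hC hN hc0 hS0 hu0 h1 h2
    -- exact sizes
    have hsel : ∀ u, ∃ T ⊆ S0 u, (u = u0 → T.card = 1) ∧ (u ∈ N → u ≠ u0 → T.card = 2) := by
      intro u
      by_cases hu : u = u0
      · subst hu
        obtain ⟨T, hT, hT'⟩ := Finset.exists_subset_card_eq h1
        exact ⟨T, hT, fun _ => hT', fun _ h => absurd rfl h⟩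
      · by_cases huN : u ∈ N
        · obtain ⟨T, hT, hT'⟩ := Finset.exists_subset_card_eq (h2 u huN hu)
          exact ⟨T, hT, fun h => absurd h hu, fun _ _ => hT'⟩
        · exact ⟨∅, Finset.empty_subset _, fun h => absurd h hu, fun h => absurd h huN⟩
    choose S1 hS1 hS1a hS1b using hsel
    have hadm : Adm H C N u0 c0 S1 := ⟨hc0, fun u hu a ha => hS0 u hu a (hS1 u ha),
      hS1a u0 rfl, fun u hu hu' => hS1b u hu hu'⟩
    obtain ⟨c, S, hA, g, hg, hg1⟩ := exists_one H C N u0 hu0 (by rw [hC]; exact hN) c0 S1 hadm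
    obtain ⟨u, hu⟩ := Finset.card_eq_one.1 hg1
    have huN : u ∈ N ∧ g ∈ S u := by
      have : u ∈ N.filter (fun u => g ∈ S u) := by rw [hu]; exact Finset.mem_singleton_self u
      exact Finset.mem_filter.1 this
    have hother : ∀ w ∈ N, w ≠ u → g ∉ S w := by
      intro w hw hwu h
      have : w ∈ N.filter (fun u => g ∈ S u) := Finset.mem_filter.2 ⟨hw, h⟩
      rw [hu, Finset.mem_singleton] at this
      exact hwu this
    have hmissg : Miss H c u g := (hA.miss u huN.1 g huN.2).2
    by_cases hN' : (N.erase u).Nonempty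
    · -- the smaller problem
      let H' : SimpleGraph V :=
        { Adj := fun v w => H.Adj v w ∧ c v w ≠ g
          symm := ⟨fun v w h => ⟨h.1.symm, by rw [hA.pc.symm w v]; exact h.2⟩⟩
          loopless := ⟨fun v h => H.loopless.irrefl v h.1⟩ }
      have hpc' : PC H' (C.erase g) c := ⟨hA.pc.symm,
        fun v w h => Finset.mem_erase.2 ⟨h.2, hA.pc.mem v w h.1⟩,
        fun v w w' h h' he => hA.pc.inj v w w' h.1 h'.1 he⟩
      obtain ⟨u1, hu1, hu1'⟩ : ∃ u1 ∈ N.erase u, ∀ w ∈ N.erase u, w ≠ u1 → w ≠ u0 := by
        by_cases h : u0 ∈ N.erase u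
        · exact ⟨u0, h, fun w _ hw => hw⟩
        · obtain ⟨u1, hu1⟩ := hN'
          exact ⟨u1, hu1, fun w hw _ h' => h (h' ▸ hw)⟩
      obtain ⟨c1, f1, hc1, hf1, hinj1⟩ := ih H' (C.erase g) c (N.erase u) S u1
        (by rw [Finset.card_erase_of_mem hg, hC]; rfl)
        (by rw [Finset.card_erase_of_mem huN.1]; omega) hpc'
        (by
          intro w hw a ha
          have hwN := Finset.mem_of_mem_erase hw
          have hwu := Finset.ne_of_mem_erase hw
          have h3 := hA.miss w hwN a ha
          refine ⟨Finset.mem_erase.2 ⟨fun h => hother w hwN hwu (h ▸ ha), h3.1⟩, fun x hx =>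
            h3.2 x hx.1⟩)
        hu1
        (by
          by_cases h : u1 = u0
          · rw [h, hA.one]
          · rw [hA.two u1 (Finset.mem_of_mem_erase hu1) h]
            omega)
        (by
          intro w hw hwu
          rw [hA.two w (Finset.mem_of_mem_erase hw) (hu1' w hw hwu)])
      have hne1 : ∀ v w, H.Adj v w → c v w ≠ g → c1 v w ≠ g := fun v w h h' =>
        Finset.ne_of_mem_erase (hc1.mem v w ⟨h, h'⟩)
      refine ⟨fun v w => if H.Adj v w ∧ c v w = g then g else c1 v w,
        fun w => if w = u then g else f1 w, ⟨?_, ?_, ?_⟩, ?_, ?_⟩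
      · intro v w
        rw [hc1.symm v w, H.adj_comm v w, hA.pc.symm v w]
      · intro v w h
        try dsimp only
        split_ifs with h3
        · exact hg
        · exact Finset.mem_of_mem_erase (hc1.mem v w ⟨h, fun h4 => h3 ⟨h, h4⟩⟩)
      · intro v w w' h h' he
        try dsimp only at he
        by_cases h3 : c v w = g
        · by_cases h4 : c v w' = g
          · exact hA.pc.inj v w w' h h' (h3.trans h4.symm)
          · rw [if_pos ⟨h, h3⟩, if_neg fun h5 => h4 h5.2] at he
            exact absurd he.symm (hne1 v w' h' h4)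
        · by_cases h4 : c v w' = g
          · rw [if_neg fun h5 => h3 h5.2, if_pos ⟨h', h4⟩] at he
            exact absurd he (hne1 v w h h3)
          · rw [if_neg fun h5 => h3 h5.2, if_neg fun h5 => h4 h5.2] at he
            exact hc1.inj v w w' ⟨h, h3⟩ ⟨h', h4⟩ he
      · intro w hw
        try dsimp only
        by_cases hwu : w = u
        · subst hwu
          rw [if_pos rfl]
          refine ⟨hg, fun x hx => ?_⟩
          beta_reduce
          rw [if_neg fun h5 => hmissg x hx h5.2]
          exact hne1 w x hx (hmissg x hx)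
        · rw [if_neg hwu]
          have h3 := hf1 w (Finset.mem_erase.2 ⟨hwu, hw⟩)
          refine ⟨Finset.mem_of_mem_erase h3.1, fun x hx => ?_⟩
          beta_reduce
          split_ifs with h4
          · exact (Finset.ne_of_mem_erase h3.1).symm
          · exact h3.2 x ⟨hx, fun h5 => h4 ⟨hx, h5⟩⟩
      · intro w hw w' hw' he
        try dsimp only at he
        rw [Finset.mem_coe] at hw hw'
        by_cases hwu : w = u
        · by_cases hwu' : w' = u
          · rw [hwu, hwu']
          · rw [if_pos hwu, if_neg hwu'] at he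
            exact absurd he.symm
              (Finset.ne_of_mem_erase (hf1 w' (Finset.mem_erase.2 ⟨hwu', hw'⟩)).1)
        · by_cases hwu' : w' = u
          · rw [if_neg hwu, if_pos hwu'] at he
            exact absurd he
              (Finset.ne_of_mem_erase (hf1 w (Finset.mem_erase.2 ⟨hwu, hw⟩)).1)
          · rw [if_neg hwu, if_neg hwu'] at he
            exact hinj1 (Finset.mem_coe.2 (Finset.mem_erase.2 ⟨hwu, hw⟩))
              (Finset.mem_coe.2 (Finset.mem_erase.2 ⟨hwu', hw'⟩)) he
    · have hall : ∀ w ∈ N, w = u := by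
        intro w hw
        by_contra hwu
        exact hN' ⟨w, Finset.mem_erase.2 ⟨hwu, hw⟩⟩
      refine ⟨c, fun _ => g, hA.pc, ?_, ?_⟩
      · intro w hw
        rw [hall w hw]
        exact ⟨hg, hmissg⟩
      · intro w hw w' hw' _
        rw [hall w hw, hall w' hw']

/-- the graph on the vertices of `W` -/
def res (G : SimpleGraph V) (W : Finset V) : SimpleGraph V where
  Adj v w := G.Adj v w ∧ v ∈ W ∧ w ∈ W
  symm := ⟨fun _ _ h => ⟨h.1.symm, h.2.2, h.2.1⟩⟩
  loopless := ⟨fun v h => G.loopless.irrefl v h.1⟩

theorem vizing (G : SimpleGraph V) (Δ : ℕ) (hΔ : ∀ v, (nb G v).card ≤ Δ) (W : Finset V) :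
    ∃ c, PC (res G W) (range (Δ + 1)) c := by
  induction W using Finset.induction_on with
  | empty =>
    exact ⟨fun _ _ => 0, fun _ _ => rfl, fun v w h => absurd h.2.1 (Finset.notMem_empty v),
      fun v w w' h => absurd h.2.1 (Finset.notMem_empty v)⟩
  | insert v W hv ih =>
    obtain ⟨c, hc⟩ := ih
    set N := (nb G v).filter (fun u => u ∈ W) with hN
    set S : V → Finset ℕ := fun u => (range (Δ + 1)).filter (fun a => Miss (res G W) c u a) with hS
    have hNcard : N.card ≤ Δ := (Finset.card_filter_le _ _).trans (hΔ v)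
    have hScard : ∀ u ∈ N, 2 ≤ (S u).card := by
      intro u hu
      rw [hN, Finset.mem_filter, nb, Finset.mem_filter] at hu
      have hvu : G.Adj v u := hu.1.2
      have h1 : ((range (Δ + 1)).filter (fun a => ¬ Miss (res G W) c u a)).card ≤ Δ - 1 := by
        have h2 : (range (Δ + 1)).filter (fun a => ¬ Miss (res G W) c u a) ⊆
            ((nb G u).erase v).image (c u) := by
          intro a ha
          have h3 := (Finset.mem_filter.1 ha).2
          unfold Miss at h3
          push Not at h3
          obtain ⟨w, hw, hw'⟩ := h3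
          rw [Finset.mem_image]
          refine ⟨w, Finset.mem_erase.2 ⟨?_, ?_⟩, hw'⟩
          · rintro rfl
            exact hv hw.2.2
          · exact Finset.mem_filter.2 ⟨Finset.mem_univ _, hw.1⟩
        refine (Finset.card_le_card h2).trans (Finset.card_image_le.trans ?_)
        have hm : v ∈ nb G u := Finset.mem_filter.2 ⟨Finset.mem_univ _, hvu.symm⟩
        rw [Finset.card_erase_of_mem hm]
        have := hΔ u
        omega
      have h3 : ((range (Δ + 1)).filter (fun a => Miss (res G W) c u a)).card +
          ((range (Δ + 1)).filter (fun a => ¬ Miss (res G W) c u a)).card =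
            (range (Δ + 1)).card := Finset.card_filter_add_card_filter_not _
      have h4 : 1 ≤ Δ := by
        refine le_trans ?_ (hΔ v)
        exact Finset.card_pos.2 ⟨u, Finset.mem_filter.2 ⟨Finset.mem_univ _, hvu⟩⟩
      rw [Finset.card_range] at h3
      change 2 ≤ ((range (Δ + 1)).filter (fun a => Miss (res G W) c u a)).card
      omega
    by_cases hne : N.Nonempty
    · obtain ⟨u0, hu0⟩ := hne
      obtain ⟨c', f, hc', hf, hinj⟩ := main (Δ + 1) (res G W) (range (Δ + 1)) c N S u0
        (Finset.card_range _) (by omega) hc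
        (fun u _ a ha => ⟨(Finset.mem_filter.1 ha).1, (Finset.mem_filter.1 ha).2⟩) hu0
        (by have := hScard u0 hu0; omega) (fun u hu _ => hScard u hu)
      have hNmem : ∀ x, G.Adj v x → x ∈ W → x ∈ N := fun x h h' =>
        Finset.mem_filter.2 ⟨Finset.mem_filter.2 ⟨Finset.mem_univ _, h⟩, h'⟩
      refine ⟨fun x y => if x = v then f y else if y = v then f x else c' x y, ?_, ?_, ?_⟩
      · intro x y
        by_cases hx : x = v
        · by_cases hy : y = v
          · rw [hx, hy]
          · simp [hx, hy]
        · by_cases hy : y = v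
          · simp [hx, hy]
          · simp [hx, hy, hc'.symm x y]
      · intro x y h
        try dsimp only
        by_cases hx : x = v
        · subst hx
          have hy : y ≠ x := h.1.ne'
          rw [if_pos rfl]
          exact (hf y (hNmem y h.1 (Finset.mem_of_mem_insert_of_ne h.2.2 hy))).1
        · by_cases hy : y = v
          · subst hy
            rw [if_neg hx, if_pos rfl]
            exact (hf x (hNmem x h.1.symm (Finset.mem_of_mem_insert_of_ne h.2.1 hx))).1
          · rw [if_neg hx, if_neg hy]
            exact hc'.mem x y ⟨h.1, Finset.mem_of_mem_insert_of_ne h.2.1 hx,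
              Finset.mem_of_mem_insert_of_ne h.2.2 hy⟩
      · intro x y y' h h' he
        try dsimp only at he
        by_cases hx : x = v
        · subst hx
          rw [if_pos rfl, if_pos rfl] at he
          exact hinj (Finset.mem_coe.2 (hNmem y h.1 (Finset.mem_of_mem_insert_of_ne h.2.2 h.1.ne')))
            (Finset.mem_coe.2 (hNmem y' h'.1 (Finset.mem_of_mem_insert_of_ne h'.2.2 h'.1.ne'))) he
        · have hxW := Finset.mem_of_mem_insert_of_ne h.2.1 hx
          rw [if_neg hx, if_neg hx] at he
          by_cases hy : y = v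
          · by_cases hy' : y' = v
            · rw [hy, hy']
            · rw [if_pos hy, if_neg hy'] at he
              have hxN := hNmem x (hy ▸ h.1.symm) hxW
              exact absurd he.symm ((hf x hxN).2 y' ⟨h'.1, hxW,
                Finset.mem_of_mem_insert_of_ne h'.2.2 hy'⟩)
          · by_cases hy' : y' = v
            · rw [if_neg hy, if_pos hy'] at he
              have hxN := hNmem x (hy' ▸ h'.1.symm) hxW
              exact absurd he ((hf x hxN).2 y ⟨h.1, hxW,
                Finset.mem_of_mem_insert_of_ne h.2.2 hy⟩)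
            · rw [if_neg hy, if_neg hy'] at he
              exact hc'.inj x y y' ⟨h.1, hxW, Finset.mem_of_mem_insert_of_ne h.2.2 hy⟩
                ⟨h'.1, hxW, Finset.mem_of_mem_insert_of_ne h'.2.2 hy'⟩ he
    · have hno : ∀ x, G.Adj v x → x ∉ W := fun x h h' =>
        hne ⟨x, Finset.mem_filter.2 ⟨Finset.mem_filter.2 ⟨Finset.mem_univ _, h⟩, h'⟩⟩
      have hadj : ∀ x y, (res G (insert v W)).Adj x y → (res G W).Adj x y := by
        intro x y h
        have hxv : x ≠ v := by
          rintro rfl
          exact hno y h.1 (Finset.mem_of_mem_insert_of_ne h.2.2 h.1.ne')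
        have hyv : y ≠ v := by
          rintro rfl
          exact hno x h.1.symm (Finset.mem_of_mem_insert_of_ne h.2.1 h.1.ne)
        exact ⟨h.1, Finset.mem_of_mem_insert_of_ne h.2.1 hxv,
          Finset.mem_of_mem_insert_of_ne h.2.2 hyv⟩
      exact ⟨c, hc.symm, fun x y h => hc.mem x y (hadj x y h),
        fun x y y' h h' he => hc.inj x y y' (hadj x y h) (hadj x y' h') he⟩

end VIZAux

open VIZAux in
theorem stmt_VIZ : Stmt_VIZ.{u} := by
  intro V _ G Δ hΔ
  obtain ⟨c, hc⟩ := vizing G Δ hΔ univ
  refine ⟨fun v w => if G.Adj v w then c v w else 0, ?_, ?_, ?_⟩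
  · intro v w
    beta_reduce
    rw [hc.symm v w, G.adj_comm v w]
  · intro v w
    try dsimp only
    split_ifs with h
    · exact Finset.mem_range.1 (hc.mem v w ⟨h, Finset.mem_univ _, Finset.mem_univ _⟩)
    · omega
  · intro v w hw w' hw' he
    have h1 : G.Adj v w := (Finset.mem_filter.1 (Finset.mem_coe.1 hw)).2
    have h2 : G.Adj v w' := (Finset.mem_filter.1 (Finset.mem_coe.1 hw')).2
    simp only [if_pos h1, if_pos h2] at he
    exact hc.inj v w w' ⟨h1, Finset.mem_univ _, Finset.mem_univ _⟩
      ⟨h2, Finset.mem_univ _, Finset.mem_univ _⟩ he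

end Pool.Agent.Work.MP_db9399_all
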